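import Mathlib
import Pool.Agent.KS6_3.ZL.H707R3.Core

/-!
Euler products over places as sums over effective divisors, and the double counting argument which
shows that they are polynomials.
-/

set_option autoImplicit false

open PowerSeries

namespace Pool.Agent.H962R3.Cnt

variable {ι : Type*}

/-- The degree of a divisor. -/
noncomputable def Deg (d : ι → ℕ) (D : ι →₀ ℤ) : ℤ := D.sum fun v n => n * d v

/-- The value of a multiplicative function on a divisor. -/
noncomputable def Val {C : Type*} [Field C] (a : ι → C) (D : ι →₀ ℤ) : C := D.prod fun v n => a v ^ n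

theorem Deg_add (d : ι → ℕ) (D E : ι →₀ ℤ) : Deg d (D + E) = Deg d D + Deg d E := by
  classical
  unfold Deg
  rw [Finsupp.sum_add_index']
  · intro v; simp
  · intro v a b; ring

theorem Deg_zero (d : ι → ℕ) : Deg d 0 = 0 := by simp [Deg]

theorem Deg_neg (d : ι → ℕ) (D : ι →₀ ℤ) : Deg d (-D) = - Deg d D := by
  have h := Deg_add d D (-D)
  rw [add_neg_cancel, Deg_zero] at h
  omega

section val
variable {C : Type*} [Field C] (a : ι → C) (ha : ∀ v, a v ≠ 0)

include ha in
theorem Val_add (D E : ι →₀ ℤ) : Val a (D + E) = Val a D * Val a E := by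
  classical
  unfold Val
  rw [Finsupp.prod_add_index']
  · intro v; simp
  · intro v m n; exact zpow_add₀ (ha v) m n

end val

/-- from exponents to divisors -/
noncomputable def toD (d : ι → ℕ) (l : ι →₀ ℕ) : ι →₀ ℤ :=
  Finsupp.onFinset l.support (fun v => ((l v / d v : ℕ) : ℤ)) (by
    intro v hv
    rw [Finsupp.mem_support_iff]
    intro h
    apply hv
    simp [h])

/-- from divisors to exponents -/
noncomputable def toL (d : ι → ℕ) (D : ι →₀ ℤ) : ι →₀ ℕ :=
  Finsupp.onFinset D.support (fun v => (D v).toNat * d v) (by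
    intro v hv
    rw [Finsupp.mem_support_iff]
    intro h
    apply hv
    simp [h])

theorem toD_apply (d : ι → ℕ) (l : ι →₀ ℕ) (v : ι) : toD d l v = ((l v / d v : ℕ) : ℤ) := rfl

theorem toL_apply (d : ι → ℕ) (D : ι →₀ ℤ) (v : ι) : toL d D v = (D v).toNat * d v := rfl

/-- The effective divisors of degree `k`. -/
def Eff (d : ι → ℕ) (k : ℕ) : Set (ι →₀ ℤ) := {D | 0 ≤ D ∧ Deg d D = k}

section main

variable (d : ι → ℕ) (hd : ∀ v, d v ≠ 0) (hfin : ∀ k, {v | d v ≤ k}.Finite)

theorem Deg_eq_sum_of_subset (D : ι →₀ ℤ) (s : Finset ι) (hs : D.support ⊆ s) :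
    Deg d D = ∑ v ∈ s, D v * d v := by
  unfold Deg
  rw [Finsupp.sum_of_support_subset D hs]
  intro v _
  simp

include hd in
theorem support_subset {k : ℕ} {D : ι →₀ ℤ} (hD : D ∈ Eff d k) :
    D.support ⊆ (hfin k).toFinset := by
  intro v hv
  rw [Set.Finite.mem_toFinset, Set.mem_ofPred_eq]
  obtain ⟨h0, h1⟩ := hD
  rw [Finsupp.mem_support_iff] at hv
  have h2 : 0 ≤ D v := h0 v
  have h3 : D v * d v ≤ Deg d D := by
    unfold Deg Finsupp.sum
    exact Finset.single_le_sum (f := fun v => D v * (d v : ℤ))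
      (fun w _ => mul_nonneg (h0 w) (Int.natCast_nonneg _)) (Finsupp.mem_support_iff.2 hv)
  rw [h1] at h3
  have h4 : (1 : ℤ) * d v ≤ D v * d v := by
    apply mul_le_mul_of_nonneg_right _ (Int.natCast_nonneg _)
    omega
  have h5 : (d v : ℤ) ≤ k := by linarith
  exact_mod_cast h5

include hd in
theorem toL_mem {k : ℕ} {D : ι →₀ ℤ} (hD : D ∈ Eff d k) [DecidableEq ι] :
    toL d D ∈ Finset.finsuppAntidiag (hfin k).toFinset k := by
  have hs := support_subset d hd hfin hD
  obtain ⟨h0, h1⟩ := hD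
  rw [Finset.mem_finsuppAntidiag]
  constructor
  · have h2 : ((∑ v ∈ (hfin k).toFinset, toL d D v : ℕ) : ℤ) = k := by
      rw [← h1, Deg_eq_sum_of_subset d D _ hs]
      push_cast
      apply Finset.sum_congr rfl
      intro v _
      rw [toL_apply]
      push_cast
      rw [Int.toNat_of_nonneg (h0 v)]
    exact_mod_cast h2
  · intro v hv
    apply hs
    rw [Finsupp.mem_support_iff] at hv ⊢
    intro h
    apply hv
    rw [toL_apply, h]
    simp

include hd in
theorem toD_toL {k : ℕ} {D : ι →₀ ℤ} (hD : D ∈ Eff d k) : toD d (toL d D) = D := by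
  obtain ⟨h0, h1⟩ := hD
  ext v
  rw [toD_apply, toL_apply, Nat.mul_div_cancel _ (Nat.pos_of_ne_zero (hd v)),
    Int.toNat_of_nonneg (h0 v)]

include hd hfin in
theorem eff_finite (k : ℕ) : (Eff d k).Finite := by
  classical
  refine ((Finset.finsuppAntidiag (hfin k).toFinset k).finite_toSet.image (toD d)).subset ?_
  intro D hD
  exact ⟨toL d D, toL_mem d hd hfin hD, toD_toL d hd hD⟩

theorem toL_toD {l : ι →₀ ℕ} (s : Finset ι) (hl : l.support ⊆ s) (h : ∀ v ∈ s, d v ∣ l v) :
    toL d (toD d l) = l := by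
  ext v
  rw [toL_apply, toD_apply, Int.toNat_natCast]
  by_cases hv : v ∈ s
  · exact Nat.div_mul_cancel (h v hv)
  · have : l v = 0 := by
      by_contra hc
      exact hv (hl (Finsupp.mem_support_iff.2 hc))
    rw [this]
    simp

theorem toD_mem {k : ℕ} {l : ι →₀ ℕ} [DecidableEq ι] (s : Finset ι)
    (hl : l ∈ Finset.finsuppAntidiag s k) (h : ∀ v ∈ s, d v ∣ l v) : toD d l ∈ Eff d k := by
  rw [Finset.mem_finsuppAntidiag] at hl
  obtain ⟨h1, h2⟩ := hl
  refine ⟨fun v => ?_, ?_⟩
  · rw [toD_apply]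
    exact Int.natCast_nonneg _
  · rw [Deg_eq_sum_of_subset d _ s]
    · rw [← h1]
      push_cast
      apply Finset.sum_congr rfl
      intro v hv
      rw [toD_apply]
      have h3 := Nat.div_mul_cancel (h v hv)
      exact_mod_cast h3
    · intro v hv
      apply h2
      rw [Finsupp.mem_support_iff] at hv ⊢
      intro h4
      apply hv
      rw [toD_apply, h4]
      simp

include hd in
/-- The coefficients of a finite partial product. -/
theorem coeff_prod_geom {C : Type*} [Field C] (a : ι → C) (k : ℕ) :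
    coeff k (∏ v ∈ (hfin k).toFinset, Pool.Agent.H707R3.geom (a v) (d v)) =
      ∑ D ∈ (eff_finite d hd hfin k).toFinset, Val a D := by
  classical
  rw [PowerSeries.coeff_prod]
  have h1 : ∀ l ∈ Finset.finsuppAntidiag (hfin k).toFinset k,
      (∏ i ∈ (hfin k).toFinset, coeff (l i) (Pool.Agent.H707R3.geom (a i) (d i))) =
        if ∀ v ∈ (hfin k).toFinset, d v ∣ l v then Val a (toD d l) else 0 := by
    intro l hl
    rw [Finset.mem_finsuppAntidiag] at hl
    split_ifs with h
    · unfold Val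
      rw [Finsupp.prod_of_support_subset (s := (hfin k).toFinset)]
      · apply Finset.prod_congr rfl
        intro v hv
        rw [Pool.Agent.H707R3.coeff_geom, if_pos (h v hv), toD_apply, zpow_natCast]
      · intro v hv
        apply hl.2
        rw [Finsupp.mem_support_iff] at hv ⊢
        intro h4
        apply hv
        rw [toD_apply, h4]
        simp
      · intro v _
        exact zpow_zero _
    · push Not at h
      obtain ⟨v, hv, hdv⟩ := h
      apply Finset.prod_eq_zero hv
      rw [Pool.Agent.H707R3.coeff_geom, if_neg hdv]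
  rw [Finset.sum_congr rfl h1, ← Finset.sum_filter]
  refine Finset.sum_bij' (fun l _ => toD d l) (fun D _ => toL d D) ?_ ?_ ?_ ?_ ?_
  · intro l hl
    rw [Finset.mem_filter] at hl
    rw [Set.Finite.mem_toFinset]
    exact toD_mem d _ hl.1 hl.2
  · intro D hD
    rw [Set.Finite.mem_toFinset] at hD
    rw [Finset.mem_filter]
    refine ⟨toL_mem d hd hfin hD, fun v _ => ?_⟩
    rw [toL_apply]
    exact Dvd.intro_left _ rfl
  · intro l hl
    rw [Finset.mem_filter, Finset.mem_finsuppAntidiag] at hl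
    exact toL_toD d _ hl.1.2 hl.2
  · intro D hD
    rw [Set.Finite.mem_toFinset] at hD
    exact toD_toL d hd hD
  · intro l _
    rfl

/-- The double counting argument. -/
theorem vanish {C : Type*} [Field C] [CharZero C] (a : ι → C) (ha : ∀ v, a v ≠ 0)
    {H : Type*} [Group H] (dv : H → ι →₀ ℤ) (hinv : ∀ h, dv h⁻¹ = - dv h)
    (hval : ∀ h, Val a (dv h) = 1) (hdeg : ∀ h, Deg d (dv h) = 0)
    (k c : ℕ) (hc : c ≠ 0)
    (hcard : ∀ D : ι →₀ ℤ, Deg d D = k → Nat.card {h : H // 0 ≤ D + dv h} = c)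
    (D0 : ι →₀ ℤ) (hD0 : Deg d D0 = 0) (hv0 : Val a D0 ≠ 1) :
    ∑ D ∈ (eff_finite d hd hfin k).toFinset, Val a D = 0 := by
  classical
  have hfinE : Finite (Eff d k) := (eff_finite d hd hfin k)
  have : Fintype (Eff d k) := Fintype.ofFinite _
  have hdegD : ∀ D : Eff d k, Deg d (D.1 + D0) = k := by
    intro D
    rw [Deg_add, hD0, D.2.2, add_zero]
  have hdegD' : ∀ D : Eff d k, Deg d (D.1 - D0) = k := by
    intro D
    rw [sub_eq_add_neg, Deg_add, Deg_neg, hD0, D.2.2, neg_zero, add_zero]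
  have hf1 : ∀ D : Eff d k, Finite {h : H // 0 ≤ (D.1 + D0) + dv h} := by
    intro D
    apply Nat.finite_of_card_ne_zero
    rw [hcard _ (hdegD D)]
    exact hc
  have hf2 : ∀ D : Eff d k, Finite {h : H // 0 ≤ (D.1 - D0) + dv h} := by
    intro D
    apply Nat.finite_of_card_ne_zero
    rw [hcard _ (hdegD' D)]
    exact hc
  have : ∀ D : Eff d k, Fintype {h : H // 0 ≤ (D.1 + D0) + dv h} := fun D => Fintype.ofFinite _
  have : ∀ D : Eff d k, Fintype {h : H // 0 ≤ (D.1 - D0) + dv h} := fun D => Fintype.ofFinite _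
  let e : (Σ D : Eff d k, {h : H // 0 ≤ (D.1 + D0) + dv h}) ≃
      (Σ D : Eff d k, {h : H // 0 ≤ (D.1 - D0) + dv h}) :=
    { toFun := fun x => ⟨⟨x.1.1 + D0 + dv x.2.1, x.2.2, by
          rw [Deg_add, hdegD, hdeg, add_zero]⟩, ⟨x.2.1⁻¹, by
          rw [hinv]
          have : x.1.1 + D0 + dv x.2.1 - D0 + -dv x.2.1 = x.1.1 := by abel
          rw [this]
          exact x.1.2.1⟩⟩
      invFun := fun x => ⟨⟨x.1.1 - D0 + dv x.2.1, x.2.2, by
          rw [Deg_add, hdegD', hdeg, add_zero]⟩, ⟨x.2.1⁻¹, by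
          rw [hinv]
          have : x.1.1 - D0 + dv x.2.1 + D0 + -dv x.2.1 = x.1.1 := by abel
          rw [this]
          exact x.1.2.1⟩⟩
      left_inv := by
        rintro ⟨⟨D, hD⟩, ⟨h, hh⟩⟩
        have h1 : D + D0 + dv h - D0 + dv h⁻¹ = D := by
          rw [hinv]; abel
        simp only [inv_inv]
        congr 1
        · exact Subtype.ext h1
        · congr 1
          · funext x
            simp only [h1]
          · exact proof_irrel_heq _ _
      right_inv := by
        rintro ⟨⟨D, hD⟩, ⟨h, hh⟩⟩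
        have h1 : D - D0 + dv h + D0 + dv h⁻¹ = D := by
          rw [hinv]; abel
        simp only [inv_inv]
        congr 1
        · exact Subtype.ext h1
        · congr 1
          · funext x
            simp only [h1]
          · exact proof_irrel_heq _ _ }
  have h1 : ∑ x : (Σ D : Eff d k, {h : H // 0 ≤ (D.1 + D0) + dv h}),
      Val a (x.1.1 + D0 + dv x.2.1) =
      ∑ x : (Σ D : Eff d k, {h : H // 0 ≤ (D.1 - D0) + dv h}), Val a x.1.1 :=
    Fintype.sum_equiv e _ _ fun x => rfl
  rw [Fintype.sum_sigma, Fintype.sum_sigma] at h1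
  have h2 : ∀ D : Eff d k, ∑ y : {h : H // 0 ≤ (D.1 + D0) + dv h}, Val a (D.1 + D0 + dv y.1) =
      c * Val a D0 * Val a D.1 := by
    intro D
    have h3 : ∀ y : {h : H // 0 ≤ (D.1 + D0) + dv h}, Val a (D.1 + D0 + dv y.1) =
        Val a D0 * Val a D.1 := by
      intro y
      rw [Val_add a ha, Val_add a ha, hval, mul_one, mul_comm]
    rw [Finset.sum_congr rfl fun y _ => h3 y, Finset.sum_const, Finset.card_univ,
      ← Nat.card_eq_fintype_card, hcard _ (hdegD D), nsmul_eq_mul, mul_assoc]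
  have h4 : ∀ D : Eff d k, ∑ y : {h : H // 0 ≤ (D.1 - D0) + dv h}, Val a D.1 =
      c * Val a D.1 := by
    intro D
    rw [Finset.sum_const, Finset.card_univ, ← Nat.card_eq_fintype_card, hcard _ (hdegD' D),
      nsmul_eq_mul]
  have h5 : ∑ D : Eff d k, (c : C) * Val a D0 * Val a D.1 = ∑ D : Eff d k, (c : C) * Val a D.1 := by
    rw [← Finset.sum_congr rfl fun D _ => h2 D, ← Finset.sum_congr rfl fun D _ => h4 D]
    exact h1
  rw [← Finset.mul_sum, ← Finset.mul_sum] at h5
  have h6 : ∑ D ∈ (eff_finite d hd hfin k).toFinset, Val a D = ∑ D : Eff d k, Val a D.1 := by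
    rw [← Finset.sum_coe_sort]
    refine Fintype.sum_equiv (Equiv.subtypeEquivRight fun D => ?_) _ _ fun D => rfl
    rw [Set.Finite.mem_toFinset]
  rw [h6]
  by_contra hne
  apply hv0
  have hc' : (c : C) ≠ 0 := by exact_mod_cast hc
  have h7 : (c : C) * Val a D0 = c := mul_right_cancel₀ hne h5
  have h8 : (c : C) * Val a D0 = c * 1 := by rw [h7, mul_one]
  exact mul_left_cancel₀ hc' h8

end main

section padic

open scoped PowerSeries.WithPiTopology

variable {p : ℕ} [Fact p.Prime]

/-- A power series over `ℂ_[p]` with finitely many coefficients and constant term one. -/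
theorem exists_recipProd (L : PowerSeries ℂ_[p]) (h0 : coeff 0 L = 1) (k0 : ℕ)
    (hk : ∀ k, k0 ≤ k → coeff k L = 0) : ∃ A : Multiset ℂ_[p], L = Pool.Agent.H707R3.recipProd A := by
  have key : ∀ n : ℕ, ∀ P : Polynomial ℂ_[p], P.natDegree ≤ n → P.coeff 0 = 1 →
      ∃ A : Multiset ℂ_[p], (P : PowerSeries ℂ_[p]) = Pool.Agent.H707R3.recipProd A := by
    intro n
    induction n with
    | zero =>
      intro P hP hP0
      refine ⟨0, ?_⟩
      rw [Polynomial.eq_C_of_natDegree_le_zero hP, hP0]
      simp [Pool.Agent.H707R3.recipProd]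
    | succ n ih =>
      intro P hP hP0
      by_cases hdeg : P.natDegree = 0
      · refine ⟨0, ?_⟩
        rw [Polynomial.eq_C_of_natDegree_eq_zero hdeg, hP0]
        simp [Pool.Agent.H707R3.recipProd]
      · have hne : P.degree ≠ 0 := by
          intro h
          exact hdeg (Polynomial.natDegree_eq_of_degree_eq_some h)
        obtain ⟨r, hr⟩ := IsAlgClosed.exists_root P hne
        have hr0 : r ≠ 0 := by
          rintro rfl
          rw [Polynomial.IsRoot.def, ← Polynomial.coeff_zero_eq_eval_zero, hP0] at hr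
          exact one_ne_zero hr
        obtain ⟨Q, hQ⟩ := Polynomial.dvd_iff_isRoot.2 hr
        let R : Polynomial ℂ_[p] := Polynomial.C (-r) * Q
        have hPR : P = (1 - Polynomial.C r⁻¹ * Polynomial.X) * R := by
          have h1 : (1 - Polynomial.C r⁻¹ * Polynomial.X) * Polynomial.C (-r) =
              Polynomial.X - Polynomial.C r := by
            rw [sub_mul, one_mul, mul_assoc, mul_comm Polynomial.X, ← mul_assoc, ← Polynomial.C_mul]
            have : r⁻¹ * -r = -1 := by field_simp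
            rw [this]
            simp only [map_neg, Polynomial.C_1]
            ring
          rw [hQ, ← h1]
          simp only [R]
          ring
        have hPne : P ≠ 0 := by
          rintro rfl
          simp at hP0
        have hQne : Q ≠ 0 := by
          rintro rfl
          rw [mul_zero] at hQ
          exact hPne hQ
        have hdegQ : P.natDegree = Q.natDegree + 1 := by
          rw [hQ, Polynomial.natDegree_mul (Polynomial.X_sub_C_ne_zero r) hQne,
            Polynomial.natDegree_X_sub_C, add_comm]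
        have hdegR : R.natDegree ≤ n := by
          have : R.natDegree ≤ Q.natDegree := Polynomial.natDegree_C_mul_le _ _
          omega
        have hR0 : R.coeff 0 = 1 := by
          have h1 := hP0
          rw [hPR, Polynomial.mul_coeff_zero] at h1
          simpa using h1
        obtain ⟨A, hA⟩ := ih R hdegR hR0
        refine ⟨r⁻¹ ::ₘ A, ?_⟩
        rw [hPR, Polynomial.coe_mul, hA]
        simp only [Pool.Agent.H707R3.recipProd, Multiset.map_cons, Multiset.prod_cons]
        congr 1
        simp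
  let P : Polynomial ℂ_[p] := trunc (k0 + 1) L
  have hPL : (P : PowerSeries ℂ_[p]) = L := by
    ext k
    rw [Polynomial.coeff_coe, coeff_trunc]
    split_ifs with h
    · rfl
    · rw [hk k (by omega)]
  have hP0 : P.coeff 0 = 1 := by
    rw [← Polynomial.coeff_coe, hPL, h0]
  obtain ⟨A, hA⟩ := key P.natDegree P le_rfl hP0
  exact ⟨A, by rw [← hPL, hA]⟩

/-- The coefficients of an Euler product. -/
theorem coeff_euler (d : ι → ℕ) (hd : ∀ v, d v ≠ 0) (hfin : ∀ k, {v | d v ≤ k}.Finite)
    (a : ι → ℂ_[p]) (k : ℕ) :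
    coeff k (∏' v, (1 - C (a v) * X ^ d v)⁻¹) =
      ∑ D ∈ (eff_finite d hd hfin k).toFinset, Val a D := by
  classical
  have h1 : (fun v => (1 - C (a v) * X ^ d v : PowerSeries ℂ_[p])⁻¹) =
      fun v => Pool.Agent.H707R3.geom (a v) (d v) :=
    funext fun v => Pool.Agent.H707R3.inv_eq_geom (a v) (hd v)
  rw [h1, Pool.Agent.H707R3.coeff_tprod_geom a d hfin k, coeff_prod_geom d hd hfin a k]

theorem coeff_zero_euler (d : ι → ℕ) (hd : ∀ v, d v ≠ 0) (hfin : ∀ k, {v | d v ≤ k}.Finite)
    (a : ι → ℂ_[p]) : coeff 0 (∏' v, (1 - C (a v) * X ^ d v : PowerSeries ℂ_[p])⁻¹) = 1 := by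
  classical
  have h1 : (fun v => (1 - C (a v) * X ^ d v : PowerSeries ℂ_[p])⁻¹) =
      fun v => Pool.Agent.H707R3.geom (a v) (d v) :=
    funext fun v => Pool.Agent.H707R3.inv_eq_geom (a v) (hd v)
  rw [h1, Pool.Agent.H707R3.coeff_tprod_geom a d hfin 0]
  exact Pool.Agent.H707R3.coeff_zero_prod _ _ fun v _ => Pool.Agent.H707R3.coeff_zero_geom _ _

/-- **E-COUNT.** The Euler product of a multiplicative function on divisors which is trivial on the
divisors of a group `H` of functions, such that the number of `h ∈ H` with `0 ≤ D + div h` is a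
nonzero constant on the divisors of a given large degree, and which is not trivial on all divisors of
degree zero, is a polynomial. -/
theorem euler_polynomial (d : ι → ℕ) (hd : ∀ v, d v ≠ 0) (hfin : ∀ k, {v | d v ≤ k}.Finite)
    (a : ι → ℂ_[p]) (ha : ∀ v, a v ≠ 0) {H : Type*} [Group H] (dv : H → ι →₀ ℤ)
    (hinv : ∀ h, dv h⁻¹ = - dv h) (hval : ∀ h, Val a (dv h) = 1) (hdeg : ∀ h, Deg d (dv h) = 0)
    (k0 : ℕ) (c : ℕ → ℕ) (hc : ∀ k, k0 ≤ k → c k ≠ 0)
    (hcard : ∀ k, k0 ≤ k → ∀ D : ι →₀ ℤ, Deg d D = k → Nat.card {h : H // 0 ≤ D + dv h} = c k)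
    (D0 : ι →₀ ℤ) (hD0 : Deg d D0 = 0) (hv0 : Val a D0 ≠ 1) :
    (∀ k, k0 ≤ k → coeff k (∏' v, (1 - C (a v) * X ^ d v : PowerSeries ℂ_[p])⁻¹) = 0) ∧
    ∃ A : Multiset ℂ_[p], (∏' v, (1 - C (a v) * X ^ d v : PowerSeries ℂ_[p])⁻¹) =
      Pool.Agent.H707R3.recipProd A := by
  have h1 : ∀ k, k0 ≤ k → coeff k (∏' v, (1 - C (a v) * X ^ d v : PowerSeries ℂ_[p])⁻¹) = 0 := by
    intro k hk
    rw [coeff_euler d hd hfin a k]
    exact vanish d hd hfin a ha dv hinv hval hdeg k (c k) (hc k hk) (hcard k hk) D0 hD0 hv0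
  exact ⟨h1, exists_recipProd _ (coeff_zero_euler d hd hfin a) k0 h1⟩

end padic

end Pool.Agent.H962R3.Cnt
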