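import Mathlib
import Pool.Agent.KS6_3.ZL.H387R3.ZT.Stmts
import Pool.Agent.KS6_3.ZL.H962R3.App
import Pool.Agent.KS6_3.ZL.H525R3.FFp.Bridge

/-!
Weil's theorem for the characters of a `ℤ_p`-tower: assembly.
-/

set_option autoImplicit false

open Module

namespace Pool.Agent.H962R3.WeilL

open Pool.Agent.H387R3.ZT Pool.Agent.H962R3.Cnt Pool.Agent.H962R3.App
open Pool.Agent

theorem rr (k F : Type) [Field k] [Finite k] [Field F] [Algebra k F] [FF.IsFF k F] :
    App.RR k F where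
  fin := H525R3.FFp.finite_support
  deg0 f _ := H525R3.FFp.ddeg_divisor (k := k) f
  fd D := H525R3.FFp.finDim_LL D
  riem := by
    obtain ⟨γ, N, _, h⟩ := H525R3.FFp.riemann k F
    exact ⟨γ, N, fun D hD => h D hD⟩

theorem val_lt_one_iff {L : Type} [Field L] (V : ValuationSubring L) (x : L) :
    V.valuation x < 1 ↔ x = 0 ∨ x⁻¹ ∉ V := by
  by_cases hx : x = 0
  · simp [hx]
  · have h1 : V.valuation x ≠ 0 := (Valuation.ne_zero_iff _).2 hx
    rw [← ValuationSubring.valuation_le_one_iff, map_inv₀, inv_le_one₀ (zero_lt_iff.2 h1), not_le]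
    simp [hx]

theorem isFr_of_isFrob {k F E : Type} [Field k] [Finite k] [Field F] [Algebra k F] [Field E]
    [Algebra F E] (h : H707R3.IsCurveFunctionField k F) (v : H707R3.Place k F) (σ : E ≃ₐ[F] E)
    (hσ : v.IsFrob σ) (K : IntermediateField F E) [Normal F K] :
    IsFr (H525R3.FFp.bridge h v) (AlgEquiv.restrictNormalHom K σ) := by
  obtain ⟨W, hW, hf⟩ := hσ
  refine ⟨W.comap (algebraMap K E), ?_, ?_⟩
  · rw [ValuationSubring.comap_comap, ← IsScalarTower.algebraMap_eq F K E, hW,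
      H525R3.FFp.bridge_O]
  · intro a ha
    have h1 := hf (algebraMap K E a) (ValuationSubring.mem_comap.1 ha)
    rw [val_lt_one_iff] at h1 ⊢
    have h2 : algebraMap K E (AlgEquiv.restrictNormalHom K σ a -
        a ^ Nat.card (H525R3.FFp.bridge h v).RF) =
        σ (algebraMap K E a) - (algebraMap K E a) ^ Nat.card v.κ := by
      rw [map_sub, map_pow, H525R3.FFp.bridge_card]
      congr 1
      exact AlgEquiv.restrictNormal_commutes σ K a
    rw [← h2] at h1
    rcases h1 with h1 | h1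
    · left
      exact (map_eq_zero_iff _ (algebraMap K E).injective).1 h1
    · right
      rw [ValuationSubring.mem_comap, map_inv₀]
      exact h1

theorem prod_zpow_eq {ι C : Type*} [Field C] (z : C) (hz : z ≠ 0) (r : ι → ℕ) (D : ι →₀ ℤ) :
    (D.prod fun v n => (z ^ r v) ^ n) = z ^ (D.sum fun v n => n * (r v : ℤ)) := by
  classical
  unfold Finsupp.prod Finsupp.sum
  induction D.support using Finset.induction with
  | empty => simp
  | insert v s hv ih =>
    rw [Finset.prod_insert hv, Finset.sum_insert hv, ih, zpow_add₀ hz]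
    congr 1
    show (z ^ r v) ^ (D v) = z ^ (D v * (r v : ℤ))
    rw [← zpow_natCast z, ← zpow_mul, mul_comm]

section layer

variable {p : ℕ} [Fact p.Prime] {F E : Type} [Field F] [Field E] [Algebra F E]
  (Φ₀ : (E ≃ₐ[F] E) ≃ₜ* Multiplicative ℤ_[p])

/-- the subgroup of the Galois group which corresponds to `p ^ n ℤ_p` -/
def sub (n : ℕ) : Subgroup (E ≃ₐ[F] E) where
  carrier := {σ | (p : ℤ_[p]) ^ n ∣ (Φ₀ σ).toAdd}
  mul_mem' := by
    intro σ τ hσ hτ
    simp only [Set.mem_ofPred_eq] at hσ hτ ⊢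
    rw [map_mul, toAdd_mul]
    exact dvd_add hσ hτ
  one_mem' := by
    simp only [Set.mem_ofPred_eq]
    rw [map_one, toAdd_one]
    exact dvd_zero _
  inv_mem' := by
    intro σ hσ
    simp only [Set.mem_ofPred_eq] at hσ ⊢
    rw [map_inv, toAdd_inv]
    exact (dvd_neg).mpr hσ

theorem mem_sub (n : ℕ) (σ : E ≃ₐ[F] E) : σ ∈ sub Φ₀ n ↔ (p : ℤ_[p]) ^ n ∣ (Φ₀ σ).toAdd :=
  Iff.rfl

theorem isOpen_sub (n : ℕ) : IsOpen (sub Φ₀ n : Set (E ≃ₐ[F] E)) := by
  have h1 : IsOpen {x : ℤ_[p] | (p : ℤ_[p]) ^ n ∣ x} := by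
    have h2 : {x : ℤ_[p] | (p : ℤ_[p]) ^ n ∣ x} = {x : ℤ_[p] | ‖x‖ < (p : ℝ) ^ (-(n : ℤ) + 1)} := by
      ext x
      rw [Set.mem_ofPred_eq, Set.mem_ofPred_eq, ← Ideal.mem_span_singleton,
        ← PadicInt.norm_le_pow_iff_mem_span_pow, PadicInt.norm_le_pow_iff_norm_lt_pow_add_one]
    rw [h2]
    exact isOpen_lt continuous_norm continuous_const
  have h3 : (sub Φ₀ n : Set (E ≃ₐ[F] E)) =
      (fun σ => (Φ₀ σ).toAdd) ⁻¹' {x : ℤ_[p] | (p : ℤ_[p]) ^ n ∣ x} := rfl
  rw [h3]
  exact h1.preimage (continuous_toAdd.comp Φ₀.continuous)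

/-- the layer -/
def lay (n : ℕ) : IntermediateField F E := IntermediateField.fixedField (sub Φ₀ n)

theorem fixing_lay [IsGalois F E] (n : ℕ) : (lay Φ₀ n).fixingSubgroup = sub Φ₀ n := by
  have hcl : IsClosed (sub Φ₀ n : Set (E ≃ₐ[F] E)) := Subgroup.isClosed_of_isOpen _ (isOpen_sub Φ₀ n)
  exact InfiniteGalois.fixingSubgroup_fixedField (k := F) (K := E) ⟨sub Φ₀ n, hcl⟩

theorem lay_finite [IsGalois F E] (n : ℕ) : FiniteDimensional F (lay Φ₀ n) := by
  rw [← InfiniteGalois.isOpen_iff_finite, fixing_lay]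
  exact isOpen_sub Φ₀ n

theorem lay_galois [IsGalois F E] (n : ℕ) : IsGalois F (lay Φ₀ n) := by
  rw [← InfiniteGalois.normal_iff_isGalois, fixing_lay]
  constructor
  intro σ hσ τ
  rw [mem_sub] at hσ ⊢
  have h1 : Φ₀ (τ * σ * τ⁻¹) = Φ₀ σ := by
    rw [map_mul, map_mul, map_inv, mul_comm (Φ₀ τ), mul_assoc, mul_inv_cancel, mul_one]
  rw [h1]
  exact hσ

/-- The character of the Galois group of the layer. -/
theorem exists_hom [IsGalois F E] (n : ℕ) [Normal F (lay Φ₀ n)] :
    ∃ Φ : ((lay Φ₀ n) ≃ₐ[F] (lay Φ₀ n)) →* Multiplicative (ZMod (p ^ n)),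
      ∀ σ : E ≃ₐ[F] E, Φ (AlgEquiv.restrictNormalHom (lay Φ₀ n) σ) =
        Multiplicative.ofAdd (PadicInt.toZModPow n (Φ₀ σ).toAdd) := by
  let f : (E ≃ₐ[F] E) →* Multiplicative (ZMod (p ^ n)) :=
    (AddMonoidHom.toMultiplicative (PadicInt.toZModPow (p := p) n).toAddMonoidHom).comp
      Φ₀.toMulEquiv.toMonoidHom
  have hsurj : Function.Surjective (AlgEquiv.restrictNormalHom (F := F) (K₁ := E) (lay Φ₀ n)) :=
    AlgEquiv.restrictNormalHom_surjective E
  have hker : (AlgEquiv.restrictNormalHom (F := F) (K₁ := E) (lay Φ₀ n)).ker ≤ f.ker := by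
    intro σ hσ
    rw [IntermediateField.restrictNormalHom_ker, fixing_lay, mem_sub] at hσ
    obtain ⟨c, hc⟩ := hσ
    rw [MonoidHom.mem_ker]
    show Multiplicative.ofAdd (PadicInt.toZModPow n (Φ₀ σ).toAdd) = 1
    rw [hc, map_mul, map_pow, map_natCast]
    have : ((p : ZMod (p ^ n)) ^ n) = 0 := by
      rw [← Nat.cast_pow, ZMod.natCast_self]
    rw [this, zero_mul, ofAdd_zero]
  refine ⟨(MonoidHom.liftOfSurjective _ hsurj ⟨f, hker⟩), fun σ => ?_⟩
  exact MonoidHom.liftOfRightInverse_comp_apply _ _ _ ⟨f, hker⟩ σ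

end layer

open scoped PowerSeries.WithPiTopology in
theorem taskWeil : TaskWeil := by
  intro hRec _ _ hFrob hUnr p _ k F E _ _ _ _ _ _ _ _ _ h n χ hχ hD0
  obtain ⟨Φ₀⟩ := h.group
  have := h.galois
  have hbase := h.base
  have hFF : FF.IsFF k F := H525R3.FFp.isFF hbase
  set K := lay Φ₀ n with hK
  have hfd : FiniteDimensional F K := lay_finite Φ₀ n
  have hgal : IsGalois F K := lay_galois Φ₀ n
  obtain ⟨Φ, hΦ⟩ := exists_hom Φ₀ n
  let B := H525R3.FFp.bridge hbase
  let S : Finset (FF.Place k F) := (h.finite_ramified.image B).toFinset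
  have hS : ∀ P : FF.Place k F, P ∉ S ↔ (B.symm P).IsUnramified E := by
    intro P
    simp only [S, Set.Finite.mem_toFinset, Set.mem_image, Set.mem_ofPred_eq, not_exists, not_and]
    constructor
    · intro h1
      by_contra h2
      exact h1 _ h2 (B.apply_symm_apply P)
    · rintro h1 v h2 rfl
      rw [B.symm_apply_apply] at h1
      exact h2 h1
  let e : {v : H707R3.Place k F // v.IsUnramified E} ≃ {P : FF.Place k F // P ∉ S} :=
    B.subtypeEquiv fun v => by
      rw [hS, B.symm_apply_apply]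
  let fr : FF.Place k F → (K ≃ₐ[F] K) := fun P =>
    AlgEquiv.restrictNormalHom K ((B.symm P).frob E)
  have hfr : ∀ v ∉ S, IsFr v (fr v) := by
    intro P _
    have h1 := isFr_of_isFrob hbase (B.symm P) _ (hFrob p k F E h (B.symm P)) K
    have h2 : H525R3.FFp.bridge hbase (B.symm P) = P := B.apply_symm_apply P
    rw [h2] at h1
    exact h1
  have hunr : ∀ v ∉ S, Unr v K := by
    intro P hP
    refine hUnr p k F E h K (B.symm P) P ?_ ((hS P).1 hP)
    have h2 : H525R3.FFp.bridge hbase (B.symm P) = P := B.apply_symm_apply P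
    rw [← H525R3.FFp.bridge_O hbase (B.symm P), h2]
  obtain ⟨M0, hM0, hrec⟩ := hRec p n k F K Φ S hunr fr hfr
  have hR := rr k F
  obtain ⟨hz, hval⟩ := H707R3.char_eq Φ₀.toMulEquiv χ hχ
  set z : ℂ_[p] := ((χ (Φ₀.toMulEquiv.symm (Multiplicative.ofAdd 1)) : ℂ_[p]ˣ) : ℂ_[p]) with hzdef
  have hz0 : z ≠ 0 := Units.ne_zero _
  let r : {P : FF.Place k F // P ∉ S} → ℕ := fun P =>
    H707R3.res n (Φ₀ ((B.symm P.1).frob E)).toAdd
  let a : {P : FF.Place k F // P ∉ S} → ℂ_[p] := fun P =>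
    ((χ ((B.symm P.1).frob E) : ℂ_[p]ˣ) : ℂ_[p])
  have ha : ∀ P, a P = z ^ r P := fun P => hval _
  have hrec' : ∀ g : Hg (k := k) S M0 hM0, Val a (dv hR g) = 1 := by
    intro g
    have h1 : Val a (dv hR g) = z ^ ((dv hR g).sum fun P m => m * (r P : ℤ)) := by
      rw [← prod_zpow_eq z hz0]
      unfold Val
      simp only [ha]
    rw [h1]
    have h2 := hrec (g.1 : F) g.1.ne_zero (by
      intro x hx
      rcases g.2 x hx with h3 | h3
      · exact Or.inl (sub_eq_zero.1 h3)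
      · exact Or.inr h3)
    -- the sum in `ZMod`
    have h4 : (((dv hR g).sum fun P m => m * (r P : ℤ) : ℤ) : ZMod (p ^ n)) = 0 := by
      rw [← h2]
      have h5 : ((dv hR g).sum fun P m => m • (Φ (fr P.1)).toAdd) =
          ∑ᶠ v : FF.Place k F, v.ord (g.1 : F) • (Φ (fr v)).toAdd := by
        have h6 : ((ex (dv hR g)).sum fun v m => m • (Φ (fr v)).toAdd) =
            (dv hR g).sum fun P m => m • (Φ (fr P.1)).toAdd := by
          unfold ex
          rw [Finsupp.sum_embDomain]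
          rfl
        rw [← h6, ex_dv]
        unfold Finsupp.sum
        rw [finsum_eq_sum_of_support_subset]
        · rfl
        · intro v hv
          rw [Function.mem_support] at hv
          rw [Finset.mem_coe, Finsupp.mem_support_iff, dvF_apply]
          intro h7
          apply hv
          rw [h7, zero_smul]
      rw [← h5]
      unfold Finsupp.sum
      push_cast
      apply Finset.sum_congr rfl
      intro P _
      rw [zsmul_eq_mul]
      congr 1
      have h8 : (Φ (fr P.1)).toAdd = PadicInt.toZModPow n (Φ₀ ((B.symm P.1).frob E)).toAdd := by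
        show (Φ (AlgEquiv.restrictNormalHom K ((B.symm P.1).frob E))).toAdd = _
        rw [hΦ]
        rfl
      rw [h8]
      have hne : NeZero (p ^ n) := ⟨pow_ne_zero _ (Fact.out : p.Prime).ne_zero⟩
      show ((H707R3.res n (Φ₀ ((B.symm P.1).frob E)).toAdd : ℕ) : ZMod (p ^ n)) = _
      rw [H707R3.res, ZMod.natCast_val, ZMod.cast_id]
    rw [ZMod.intCast_zmod_eq_zero_iff_dvd] at h4
    obtain ⟨c, hc⟩ := h4
    rw [hc, zpow_mul, zpow_natCast, hz.pow_eq_one, one_zpow]
  obtain ⟨D, hD1, hD2⟩ := hD0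
  have hdeg : ∀ v : {v : H707R3.Place k F // v.IsUnramified E}, (e v).1.deg = v.1.deg := by
    intro v
    exact H525R3.FFp.bridge_deg hbase v.1
  have hae : ∀ v : {v : H707R3.Place k F // v.IsUnramified E},
      a (e v) = ((χ (v.1.frob E) : ℂ_[p]ˣ) : ℂ_[p]) := by
    intro v
    show ((χ ((B.symm (B v.1)).frob E) : ℂ_[p]ˣ) : ℂ_[p]) = _
    rw [B.symm_apply_apply]
  obtain ⟨A, hA⟩ := App.euler_polynomial hR S M0 hM0
    (fun P => by
      have h1 := H707R3.deg_ne_zero hbase (B.symm P)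
      rw [← H525R3.FFp.bridge_deg hbase (B.symm P)] at h1
      have h2 : H525R3.FFp.bridge hbase (B.symm P) = P := B.apply_symm_apply P
      rw [h2] at h1
      exact h1)
    (fun m => by
      have h1 := (H707R3.finite_deg_le hbase m).image B
      refine h1.subset ?_
      intro P hP
      refine ⟨B.symm P, ?_, B.apply_symm_apply P⟩
      rw [Set.mem_ofPred_eq] at hP ⊢
      rw [← H525R3.FFp.bridge_deg hbase (B.symm P)]
      have h2 : H525R3.FFp.bridge hbase (B.symm P) = P := B.apply_symm_apply P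
      rw [h2]
      exact hP)
    a (fun P => Units.ne_zero _) hrec' (Finsupp.equivMapDomain e D)
    (by
      unfold Deg
      rw [Finsupp.sum_equivMapDomain]
      rw [← hD1]
      apply Finsupp.sum_congr
      intro v _
      show D v * ((e v).1.deg : ℤ) = _
      rw [hdeg])
    (by
      unfold Val
      rw [Finsupp.prod_equivMapDomain]
      intro h1
      apply hD2
      apply Units.ext
      rw [Units.val_one, ← h1]
      unfold Finsupp.prod
      rw [Units.coe_prod]
      apply Finset.prod_congr rfl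
      intro v _
      show ((χ (v.1.frob E) ^ (D v) : ℂ_[p]ˣ) : ℂ_[p]) = a (e v) ^ (D v)
      rw [hae, Units.val_zpow_eq_zpow_val])
  refine ⟨A, ?_⟩
  rw [← hA]
  unfold H707R3.Lfun
  rw [← e.tprod_eq]
  apply tprod_congr
  intro v
  rw [hae, hdeg]

end Pool.Agent.H962R3.WeilL
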