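import Mathlib
import Pool.Agent.KS6_3.ZL.H962R3.Cnt

/-!
Two impossible shapes of zeta functions: the zeta function with every degree divisible by `m ≥ 2`,
and the pair consisting of a zeta function and its `N`-th power, `N ≥ 2`.
-/

set_option autoImplicit false
set_option linter.unusedVariables false

open PowerSeries

namespace Pool.Agent.H962R3.FAbs

open Pool.Agent.H962R3.Cnt
open scoped PowerSeries.WithPiTopology

variable {p : ℕ} [Fact p.Prime]

/-- The number of effective divisors of degree `k`. -/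
noncomputable def num {ι : Type*} (d : ι → ℕ) (k : ℕ) : ℕ := Nat.card (Eff d k)

section basic

variable {ι : Type*} (d : ι → ℕ) (hd : ∀ v, d v ≠ 0) (hfin : ∀ k, {v | d v ≤ k}.Finite)

include hd hfin in
theorem coeff_zeta (k : ℕ) :
    coeff k (∏' v, (1 - X ^ d v : PowerSeries ℂ_[p])⁻¹) = (num d k : ℂ_[p]) := by
  classical
  have h := coeff_euler (p := p) d hd hfin (fun _ => 1) k
  simp only [map_one, one_mul] at h
  rw [h]
  have h1 : ∀ D : ι →₀ ℤ, Val (fun _ : ι => (1 : ℂ_[p])) D = 1 := by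
    intro D
    simp [Val, Finsupp.prod]
  rw [Finset.sum_congr rfl fun D _ => h1 D, Finset.sum_const, nsmul_eq_mul, mul_one, num,
    Nat.card_coe_set_eq, Set.ncard_eq_toFinset_card _ (eff_finite d hd hfin k)]

include hd hfin in
theorem num_ne_zero {k : ℕ} (D : ι →₀ ℤ) (hD : D ∈ Eff d k) : num d k ≠ 0 := by
  rw [num, Nat.card_coe_set_eq]
  exact (Set.ncard_pos (eff_finite d hd hfin k)).2 ⟨D, hD⟩ |>.ne'

theorem single_mem (v : ι) (j : ℕ) : Finsupp.single v (j : ℤ) ∈ Eff d (j * d v) := by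
  constructor
  · exact Finsupp.single_nonneg.2 (Int.natCast_nonneg j)
  · rw [Deg, Finsupp.sum_single_index (by simp)]
    push_cast
    rfl

include hd hfin in
theorem rec2 (q : ℕ) (P : Polynomial ℂ_[p])
    (hP : (∏' v, (1 - X ^ d v : PowerSeries ℂ_[p])⁻¹) * (1 - X) * (1 - C (q : ℂ_[p]) * X) =
      (P : PowerSeries ℂ_[p])) (k : ℕ) (hk : P.natDegree ≤ k) :
    num d (k + 2) + q * num d k = (1 + q) * num d (k + 1) := by
  set Z : PowerSeries ℂ_[p] := ∏' v, (1 - X ^ d v : PowerSeries ℂ_[p])⁻¹ with hZ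
  have h := congrArg (coeff (k + 2)) hP
  rw [Polynomial.coeff_coe, Polynomial.coeff_eq_zero_of_natDegree_lt (by omega)] at h
  have e : Z * (1 - X) * (1 - C (q : ℂ_[p]) * X) =
      Z - C (1 + (q : ℂ_[p])) * (X * Z) + C (q : ℂ_[p]) * (X ^ 2 * Z) := by
    rw [map_add, map_one]
    ring
  have e1 : coeff (k + 2) (X * Z) = coeff (k + 1) Z := coeff_succ_X_mul (k + 1) Z
  have e2 : coeff (k + 2) (X ^ 2 * Z) = coeff k Z := coeff_X_pow_mul Z 2 k
  rw [e, map_add, map_sub, coeff_C_mul, coeff_C_mul, e1, e2, hZ, coeff_zeta d hd hfin,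
    coeff_zeta d hd hfin, coeff_zeta d hd hfin] at h
  have h2 : ((num d (k + 2) + q * num d k : ℕ) : ℂ_[p]) = (((1 + q) * num d (k + 1) : ℕ) : ℂ_[p]) := by
    push_cast
    linear_combination h
  exact_mod_cast h2

include hd hfin in
theorem rec1 (P : Polynomial ℂ_[p])
    (hP : (∏' v, (1 - X ^ d v : PowerSeries ℂ_[p])⁻¹) * (1 - X) = (P : PowerSeries ℂ_[p]))
    (k : ℕ) (hk : P.natDegree ≤ k) : num d (k + 1) = num d k := by
  set Z : PowerSeries ℂ_[p] := ∏' v, (1 - X ^ d v : PowerSeries ℂ_[p])⁻¹ with hZ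
  have h := congrArg (coeff (k + 1)) hP
  rw [Polynomial.coeff_coe, Polynomial.coeff_eq_zero_of_natDegree_lt (by omega)] at h
  have e : Z * (1 - X) = Z - X * Z := by ring
  have e1 : coeff (k + 1) (X * Z) = coeff k Z := coeff_succ_X_mul k Z
  rw [e, map_sub, e1, hZ, coeff_zeta d hd hfin, coeff_zeta d hd hfin] at h
  have h2 : ((num d (k + 1) : ℕ) : ℂ_[p]) = ((num d k : ℕ) : ℂ_[p]) := by
    linear_combination h
  exact_mod_cast h2

include hd hfin in
/-- Two different places give many effective divisors. -/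
theorem le_num (v w : ι) (hvw : v ≠ w) (m : ℕ) : m + 1 ≤ num d (m * (d v * d w)) := by
  classical
  have hF := eff_finite d hd hfin (m * (d v * d w))
  rw [num, Nat.card_coe_set_eq, Set.ncard_eq_toFinset_card _ hF, ← Finset.card_range (m + 1)]
  apply Finset.card_le_card_of_injOn (fun j : ℕ =>
    (Finsupp.single v ((j * d w : ℕ) : ℤ) + Finsupp.single w (((m - j) * d v : ℕ) : ℤ)))
  · intro j hj
    have hj' : j ≤ m := by
      have := Finset.mem_range.1 hj
      omega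
    rw [Finset.mem_coe, Set.Finite.mem_toFinset]
    refine ⟨add_nonneg (single_mem d v _).1 (single_mem d w _).1, ?_⟩
    rw [Deg_add, (single_mem d v _).2, (single_mem d w _).2]
    obtain ⟨i, rfl⟩ := Nat.exists_eq_add_of_le hj'
    rw [Nat.add_sub_cancel_left]
    push_cast
    ring
  · intro i _ j _ hij
    have h := congrArg (fun D : ι →₀ ℤ => D v) hij
    simp only [Finsupp.add_apply, Finsupp.single_eq_same] at h
    rw [Finsupp.single_eq_of_ne hvw] at h
    have h1 : i * d w = j * d w := by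
      have h2 : ∀ x : ℕ, (Finsupp.single w (((x) * d v : ℕ) : ℤ) : ι →₀ ℤ) v = 0 := by
        intro x
        exact Finsupp.single_eq_of_ne hvw
      rw [h2] at h
      simp only [add_zero] at h
      exact_mod_cast h
    exact Nat.eq_of_mul_eq_mul_right (Nat.pos_of_ne_zero (hd w)) h1

end basic

/-- **F_ABS, divisibility.** -/
theorem fabs_div (q m : ℕ) (hq : 2 ≤ q) (hm : 2 ≤ m) {i1 : Type} [Infinite i1] (d1 : i1 → ℕ)
    (h1 : ∀ v, d1 v ≠ 0) (f1 : ∀ m, {v | d1 v ≤ m}.Finite)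
    (hp1 : ∃ P : Polynomial ℂ_[p], (∏' v, (1 - PowerSeries.X ^ d1 v)⁻¹) * (1 - X) *
      (1 - C (q : ℂ_[p]) * X) = (P : PowerSeries ℂ_[p]))
    (hdiv : ∀ w, m ∣ d1 w) : False := by
  classical
  obtain ⟨P, hP⟩ := hp1
  have hrec := rec2 d1 h1 f1 q P hP
  have hz : ∀ k, ¬ m ∣ k → num d1 k = 0 := by
    intro k hk
    rw [num, Nat.card_coe_set_eq, Set.ncard_eq_zero (eff_finite d1 h1 f1 k)]
    by_contra hne
    obtain ⟨D, -, hD⟩ := Set.nonempty_iff_ne_empty.2 hne
    apply hk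
    have h2 : (m : ℤ) ∣ (k : ℤ) := by
      rw [← hD, Deg, Finsupp.sum]
      apply Finset.dvd_sum
      intro v _
      exact dvd_mul_of_dvd_right (Int.natCast_dvd_natCast.2 (hdiv v)) _
    exact_mod_cast h2
  have hK : ∀ k, num d1 (m * P.natDegree + 1 + k) = 0 := by
    intro k
    induction k with
    | zero =>
      apply hz
      intro h
      have h3 := (Nat.dvd_add_right (dvd_mul_right m P.natDegree)).1 h
      have h4 := Nat.le_of_dvd one_pos h3
      omega
    | succ k ih =>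
      have h5 : P.natDegree ≤ m * P.natDegree + k := by nlinarith
      have h6 := hrec (m * P.natDegree + k) h5
      have e1 : m * P.natDegree + k + 1 = m * P.natDegree + 1 + k := by ring
      have e2 : m * P.natDegree + k + 2 = m * P.natDegree + 1 + (k + 1) := by ring
      rw [e1, e2, ih, mul_zero] at h6
      omega
  obtain ⟨w⟩ : Nonempty i1 := inferInstance
  have h7 := num_ne_zero d1 h1 f1 _ (single_mem d1 w (m * P.natDegree + 1))
  apply h7
  have h8 : m * P.natDegree + 1 ≤ (m * P.natDegree + 1) * d1 w :=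
    Nat.le_mul_of_pos_right _ (Nat.pos_of_ne_zero (h1 w))
  obtain ⟨k, hk⟩ := Nat.exists_eq_add_of_le h8
  rw [hk]
  exact hK k

/-- A power of a zeta function. -/
theorem zeta_pow (N : ℕ) (hN : N ≠ 0) {i0 i1 : Type} (d0 : i0 → ℕ) (d1 : i1 → ℕ)
    (h0 : ∀ v, d0 v ≠ 0) (h1 : ∀ v, d1 v ≠ 0) (f0 : ∀ m, {v | d0 v ≤ m}.Finite)
    (f1 : ∀ m, {v | d1 v ≤ m}.Finite) (f : i1 → i0) (hf : ∀ w, d1 w = d0 (f w))
    (hc : ∀ v, {w | f w = v}.ncard = N) :
    (∏' v, (1 - X ^ d1 v : PowerSeries ℂ_[p])⁻¹) =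
      (∏' v, (1 - X ^ d0 v : PowerSeries ℂ_[p])⁻¹) ^ N := by
  classical
  have e0 : (fun v => (1 - X ^ d0 v : PowerSeries ℂ_[p])⁻¹) =
      fun v => Pool.Agent.H707R3.geom 1 (d0 v) := by
    funext v
    have := Pool.Agent.H707R3.inv_eq_geom (1 : ℂ_[p]) (h0 v)
    rwa [map_one, one_mul] at this
  have e1 : (fun v => (1 - X ^ d1 v : PowerSeries ℂ_[p])⁻¹) =
      fun v => Pool.Agent.H707R3.geom 1 (d1 v) := by
    funext v
    have := Pool.Agent.H707R3.inv_eq_geom (1 : ℂ_[p]) (h1 v)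
    rwa [map_one, one_mul] at this
  rw [e0, e1]
  ext k
  have ht := Pool.Agent.H707R3.coeff_tprod_geom (p := p) (fun _ : i1 => 1) d1 f1 k
  rw [ht]
  -- the finite product over the places upstairs
  have hfib : ∏ w ∈ (f1 k).toFinset, Pool.Agent.H707R3.geom (1 : ℂ_[p]) (d1 w) =
      (∏ v ∈ (f0 k).toFinset, Pool.Agent.H707R3.geom (1 : ℂ_[p]) (d0 v)) ^ N := by
    rw [← Finset.prod_fiberwise_of_maps_to (s := (f1 k).toFinset) (t := (f0 k).toFinset) (g := f)]
    · rw [← Finset.prod_pow]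
      apply Finset.prod_congr rfl
      intro v hv
      rw [Set.Finite.mem_toFinset, Set.mem_ofPred_eq] at hv
      have h2 : ∀ w ∈ (f1 k).toFinset.filter (fun w => f w = v),
          Pool.Agent.H707R3.geom (1 : ℂ_[p]) (d1 w) = Pool.Agent.H707R3.geom (1 : ℂ_[p]) (d0 v) := by
        intro w hw
        rw [Finset.mem_filter] at hw
        rw [hf, hw.2]
      rw [Finset.prod_congr rfl h2, Finset.prod_const]
      congr 1
      rw [← hc v, ← Set.ncard_coe_finset]
      congr 1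
      ext w
      simp only [Finset.coe_filter, Set.Finite.mem_toFinset, Set.mem_ofPred_eq]
      constructor
      · exact fun h => h.2
      · intro h
        exact ⟨by rw [hf, h]; exact hv, h⟩
    · intro w hw
      rw [Set.Finite.mem_toFinset, Set.mem_ofPred_eq] at hw ⊢
      rwa [← hf]
  rw [hfib]
  -- the power of the infinite product
  have hdvd : (X : PowerSeries ℂ_[p]) ^ (k + 1) ∣
      (∏ v ∈ (f0 k).toFinset, Pool.Agent.H707R3.geom (1 : ℂ_[p]) (d0 v)) -
        (∏' v, Pool.Agent.H707R3.geom (1 : ℂ_[p]) (d0 v)) := by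
    rw [X_pow_dvd_iff]
    intro j hj
    rw [map_sub, sub_eq_zero, Pool.Agent.H707R3.coeff_tprod_geom (p := p) (fun _ : i0 => 1) d0 f0 j]
    apply Pool.Agent.H707R3.coeff_prod_eq
    · intro v hv
      rw [Set.Finite.mem_toFinset, Set.mem_ofPred_eq] at hv ⊢
      omega
    · intro v hv
      apply Pool.Agent.H707R3.X_pow_dvd_geom_sub_one
      rw [Finset.mem_sdiff] at hv
      have := hv.2
      rw [Set.Finite.mem_toFinset, Set.mem_ofPred_eq] at this
      omega
  have hdvd2 := hdvd.trans (sub_dvd_pow_sub_pow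
    (∏ v ∈ (f0 k).toFinset, Pool.Agent.H707R3.geom (1 : ℂ_[p]) (d0 v))
    (∏' v, Pool.Agent.H707R3.geom (1 : ℂ_[p]) (d0 v)) N)
  rw [X_pow_dvd_iff] at hdvd2
  have h3 := hdvd2 k (Nat.lt_succ_self k)
  rwa [map_sub, sub_eq_zero] at h3

/-- **F_ABS, powers.** -/
theorem fabs_pow (q N : ℕ) (hq : 2 ≤ q) (hN : 2 ≤ N) {i0 i1 : Type} [Infinite i0]
    (d0 : i0 → ℕ) (d1 : i1 → ℕ) (h0 : ∀ v, d0 v ≠ 0) (h1 : ∀ v, d1 v ≠ 0)
    (f0 : ∀ m, {v | d0 v ≤ m}.Finite) (f1 : ∀ m, {v | d1 v ≤ m}.Finite)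
    (hp0 : ∃ P : Polynomial ℂ_[p], (∏' v, (1 - PowerSeries.X ^ d0 v)⁻¹) * (1 - X) *
      (1 - C (q : ℂ_[p]) * X) = (P : PowerSeries ℂ_[p]))
    (hp1 : ∃ P : Polynomial ℂ_[p], (∏' v, (1 - PowerSeries.X ^ d1 v)⁻¹) * (1 - X) *
      (1 - C (q : ℂ_[p]) * X) = (P : PowerSeries ℂ_[p]))
    (f : i1 → i0) (hf : ∀ w, d1 w = d0 (f w)) (hc : ∀ v, {w | f w = v}.ncard = N) : False := by
  classical
  obtain ⟨P0, hP0⟩ := hp0
  obtain ⟨P1, hP1⟩ := hp1
  have hq0 : (q : ℂ_[p]) ≠ 0 := by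
    have : q ≠ 0 := by omega
    exact_mod_cast this
  rw [zeta_pow N (by omega) d0 d1 h0 h1 f0 f1 f hf hc] at hP1
  set Z : PowerSeries ℂ_[p] := ∏' v, (1 - X ^ d0 v : PowerSeries ℂ_[p])⁻¹ with hZ
  obtain ⟨M, rfl⟩ := Nat.exists_eq_add_of_le hN
  let u : Polynomial ℂ_[p] := (1 - Polynomial.X) * (1 - Polynomial.C (q : ℂ_[p]) * Polynomial.X)
  have hu : (u : PowerSeries ℂ_[p]) = (1 - X) * (1 - C (q : ℂ_[p]) * X) := by
    simp only [u]
    rw [Polynomial.coe_mul, Polynomial.coe_sub, Polynomial.coe_sub, Polynomial.coe_mul,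
      Polynomial.coe_one, Polynomial.coe_X, Polynomial.coe_C]
  have key : P0 ^ (2 + M) = P1 * u ^ (1 + M) := by
    apply Polynomial.coe_injective
    rw [Polynomial.coe_pow, Polynomial.coe_mul, Polynomial.coe_pow, hu, ← hP0, ← hP1]
    generalize (1 - X : PowerSeries ℂ_[p]) = A
    generalize (1 - C (q : ℂ_[p]) * X : PowerSeries ℂ_[p]) = B
    rw [mul_pow, mul_pow, mul_pow, pow_add A, pow_add B, pow_add A, pow_add B]
    ring
  have hroot : P0.IsRoot (q : ℂ_[p])⁻¹ := by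
    have h2 := congrArg (Polynomial.eval (q : ℂ_[p])⁻¹) key
    have hu0 : Polynomial.eval (q : ℂ_[p])⁻¹ u = 0 := by
      simp only [u]
      rw [Polynomial.eval_mul]
      simp [hq0]
    rw [Polynomial.eval_pow, Polynomial.eval_mul, Polynomial.eval_pow, hu0,
      zero_pow (by omega), mul_zero] at h2
    exact eq_zero_of_pow_eq_zero h2
  obtain ⟨R, hR⟩ := Polynomial.dvd_iff_isRoot.2 hroot
  have hfac : P0 = (1 - Polynomial.C (q : ℂ_[p]) * Polynomial.X) *
      (Polynomial.C (-(q : ℂ_[p])⁻¹) * R) := by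
    have e : (1 - Polynomial.C (q : ℂ_[p]) * Polynomial.X) * Polynomial.C (-(q : ℂ_[p])⁻¹) =
        Polynomial.X - Polynomial.C (q : ℂ_[p])⁻¹ := by
      rw [sub_mul, one_mul, mul_assoc, mul_comm Polynomial.X, ← mul_assoc, ← Polynomial.C_mul]
      have : (q : ℂ_[p]) * -(q : ℂ_[p])⁻¹ = -1 := by field_simp
      rw [this]
      simp only [map_neg, Polynomial.C_1]
      ring
    rw [← mul_assoc, e]
    exact hR
  have hZ1 : Z * (1 - X) = ((Polynomial.C (-(q : ℂ_[p])⁻¹) * R : Polynomial ℂ_[p]) :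
      PowerSeries ℂ_[p]) := by
    have hne : (1 - C (q : ℂ_[p]) * X : PowerSeries ℂ_[p]) ≠ 0 := by
      intro h
      have h4 := congrArg constantCoeff h
      simp at h4
    apply mul_right_cancel₀ hne
    rw [hP0]
    conv_lhs => rw [hfac]
    rw [Polynomial.coe_mul, mul_comm]
    congr 1
    rw [Polynomial.coe_sub, Polynomial.coe_mul, Polynomial.coe_one, Polynomial.coe_X,
      Polynomial.coe_C]
  have hrec := rec1 d0 h0 f0 _ hZ1
  set k0 := (Polynomial.C (-(q : ℂ_[p])⁻¹) * R : Polynomial ℂ_[p]).natDegree with hk0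
  have hconst : ∀ k, num d0 (k0 + k) = num d0 k0 := by
    intro k
    induction k with
    | zero => rfl
    | succ k ih => rw [← add_assoc, hrec (k0 + k) (by omega), ih]
  obtain ⟨v, w, hvw⟩ := exists_pair_ne i0
  let m := k0 + num d0 k0
  have h5 := le_num d0 h0 f0 v w hvw m
  have h6 : m ≤ m * (d0 v * d0 w) :=
    Nat.le_mul_of_pos_right _ (Nat.mul_pos (Nat.pos_of_ne_zero (h0 v)) (Nat.pos_of_ne_zero (h0 w)))
  obtain ⟨k, hk⟩ := Nat.exists_eq_add_of_le (show k0 ≤ m * (d0 v * d0 w) by omega)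
  rw [hk, hconst k] at h5
  omega

end Pool.Agent.H962R3.FAbs
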